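import Pool.Agent.X85.FDFinal

/-!
# Euler flows on `𝕋³` whose velocities span a finite-dimensional space during a short time

If the velocities of a classical solution of the Euler equations on `𝕋³`, during some (arbitrarily
short) open interval of time, lie in a finite-dimensional vector space `E` of velocity fields, then
the solution can be continued to all times `t ∈ ℝ`, it never leaves `E`, and it stays bounded, with
all the derivatives which its velocities have, for all times. Hence the velocities of a solution which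
becomes singular, or whose `H^m` norm is unbounded, span an infinite-dimensional space during every
interval of time. No special form (Fourier modes, symmetries, ...) of the elements of `E` is assumed.
-/

set_option autoImplicit false

open Set
open scoped ContDiff

namespace Pool.Agent.Results.MP_b0497c_an.FiniteDimensional

open Pool.Agent.H708R2.EulerSign

/-- Let `(u, p)` be a classical solution of the Euler equations on `𝕋³` on the time interval
`[0, T)`, and `0 ≤ a < b ≤ T`.

(1) Assume that the velocities `u t`, `t ∈ (a, b)`, lie in a finite-dimensional vector space `E` of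
functions. Then there is a classical solution `(v, q)` for all times `t ∈ ℝ` with `v t = u t` for
`t ∈ [0, T)` and `v t ∈ E` for all `t`; `v` and the velocity gradient of `v` are bounded on `ℝ × 𝕋³`,
`v` is smooth in `t`, and if the fields `u t`, `t ∈ (a, b)`, are `C^m`, then the `H^m` norm of `v t`
is bounded for `t ∈ ℝ`.

(2) If the solution has no extension to a classical solution on a longer interval `[0, T')`, then the
velocities `u t`, `t ∈ (a, b)`, span an infinite-dimensional space.

(3) If the velocities are `C^m` on `(a, b)` and their `H^m` norms on `[0, T)` are unbounded, then the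
velocities `u t`, `t ∈ (a, b)`, span an infinite-dimensional space. -/
theorem result {T : ℝ} {u : ℝ → V → V} {p : ℝ → V → ℝ} (h : IsClassicalSolution (Ico 0 T) u p)
    {a b : ℝ} (ha : 0 ≤ a) (hab : a < b) (hb : b ≤ T) :
    (∀ E : Submodule ℝ (V → V), FiniteDimensional ℝ E → (∀ t ∈ Ioo a b, u t ∈ E) →
      ∃ (v : ℝ → V → V) (q : ℝ → V → ℝ), IsClassicalSolution univ v q ∧
        (∀ t ∈ Ico 0 T, v t = u t) ∧ (∀ t, v t ∈ E) ∧
        (∃ M, ∀ t x i j, |v t x i| ≤ M ∧ |grad (v t) x i j| ≤ M) ∧
        (∀ x i, ContDiff ℝ ∞ (fun t => v t x i)) ∧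
        ∀ m : ℕ, (∀ t ∈ Ioo a b, ContDiff ℝ m (u t)) → ∃ M, ∀ t, sobolevSq m (v t) ≤ M) ∧
    ((∀ (T' : ℝ) (v : ℝ → V → V) (q : ℝ → V → ℝ), T < T' →
      IsClassicalSolution (Ico 0 T') v q → ∃ t ∈ Ico 0 T, v t ≠ u t) →
      ¬ FiniteDimensional ℝ (Submodule.span ℝ (u '' Ioo a b))) ∧
    (∀ m : ℕ, (∀ t ∈ Ioo a b, ContDiff ℝ m (u t)) →
      (∀ M : ℝ, ∃ t ∈ Ico 0 T, M < sobolevSq m (u t)) →
      ¬ FiniteDimensional ℝ (Submodule.span ℝ (u '' Ioo a b))) := by
  refine ⟨fun E hE hu => X85.FD.main h ha hab hb E hu, fun hmax hfin => ?_, fun m hm hunb hfin => ?_⟩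
  · obtain ⟨v, q, h1, h2, -⟩ := X85.FD.main h ha hab hb
      (Submodule.span ℝ (u '' Ioo a b)) (fun t ht => Submodule.subset_span ⟨t, ht, rfl⟩)
    obtain ⟨t, ht, hne⟩ := hmax (T + 1) v q (by linarith) (X85.FD.restrict_univ h1)
    exact hne (h2 t ht)
  · obtain ⟨v, q, -, h2, -, -, -, h3⟩ := X85.FD.main h ha hab hb
      (Submodule.span ℝ (u '' Ioo a b)) (fun t ht => Submodule.subset_span ⟨t, ht, rfl⟩)
    obtain ⟨M, hM⟩ := h3 m hm
    obtain ⟨t, ht, hlt⟩ := hunb M
    rw [← h2 t ht] at hlt
    exact absurd (hM t) (not_le.2 hlt)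

end Pool.Agent.Results.MP_b0497c_an.FiniteDimensional
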