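import Pool.Agent.X85.EulerMod

/-!
# Finite time blow-up for Fourier-Galerkin truncations of the Euler equations on `𝕋³` to almost all modes

The Fourier-Galerkin truncation of the Euler equations to a FINITE set of modes has global solutions. Here
the set `Λ` of the modes which are kept is infinite: it may be all of `ℤ³` but for a set `R` with at most
`230400 (log N)²` elements up to `N`, or only a set `C` with at most `240 log N` elements up to `N`, or
anything between `C` and the complement of `R`. The truncation conserves the energy, and the explicit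
trigonometric polynomial `datum M` develops a singularity in finite time; the solution is the same for all
these `Λ`. The modes in `C` and `R` can be chosen arbitrarily high.
-/

set_option autoImplicit false

open MeasureTheory Set
open scoped ContDiff

namespace Pool.Agent.Results.MP_b0497c_an.GalerkinTruncation

/-- The space `ℝ³`. -/
abbrev V := Fin 3 → ℝ

/-- Frequencies. -/
abbrev K := Fin 3 → ℤ

/-- `f` is `2π`-periodic in each of the three coordinates. -/
def Periodic3 {F : Type} (f : V → F) : Prop :=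
  ∀ (i : Fin 3) (x : V), f (x + Pi.single i (2 * Real.pi)) = f x

/-- The partial derivative `∂ⱼ vᵢ (x)` of the vector field `v`. -/
noncomputable def D (v : V → V) (x : V) (j i : Fin 3) : ℝ := fderiv ℝ v x (Pi.single j 1) i

/-- The torus `𝕋³ = [-π, π]³`. -/
def torus : Set V := Icc (fun _ => -Real.pi) (fun _ => Real.pi)

/-- `k · x`. -/
noncomputable def dot (k : K) (x : V) : ℝ := ∑ i, (k i : ℝ) * x i

/-- The Fourier coefficient of `g` at the frequency `k` vanishes. -/
def NoMode (k : K) (g : V → ℝ) : Prop :=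
  ∫ x in torus, g x * Real.cos (dot k x) = 0 ∧ ∫ x in torus, g x * Real.sin (dot k x) = 0

/-- `(u, p)` is a classical solution, for the times in `I`, of the Fourier-Galerkin truncation of the
incompressible Euler equations to the modes in `Λ`: `u` and `p` are continuously differentiable in
`(t, x)` and `2π`-periodic in `x`, `div u = 0`, all Fourier modes of `u` are in `Λ`, and no Fourier mode
of `∂ₜ uᵢ + ∑ⱼ uⱼ ∂ⱼ uᵢ + ∂ᵢ p` is in `Λ`, i.e. `P_Λ (∂ₜ u + (u · ∇) u + ∇p) = 0`, `P_Λ u = u` for the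
orthogonal projection `P_Λ` to the modes in `Λ`. -/
structure IsGalerkinSolution (Λ : Set K) (I : Set ℝ) (u : ℝ → V → V) (p : ℝ → V → ℝ) : Prop where
  contDiffOn_u : ContDiffOn ℝ 1 (fun z : ℝ × V => u z.1 z.2) (I ×ˢ univ)
  contDiffOn_p : ContDiffOn ℝ 1 (fun z : ℝ × V => p z.1 z.2) (I ×ˢ univ)
  periodic_u : ∀ t ∈ I, Periodic3 (u t)
  periodic_p : ∀ t ∈ I, Periodic3 (p t)
  div_free : ∀ t ∈ I, ∀ x, ∑ i, D (u t) x i i = 0
  modes : ∀ t ∈ I, ∀ k ∉ Λ, ∀ i, NoMode k (fun x => u t x i)
  momentum : ∀ t ∈ I, ∀ k ∈ Λ, ∀ i, NoMode k (fun x =>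
    derivWithin (fun s => u s x i) I t + ∑ j, u t x j * D (u t) x j i
      + fderiv ℝ (p t) x (Pi.single i 1))

/-- `(u, p)` is a classical solution of the Euler equations for the times in `I`. -/
structure IsEulerSolution (I : Set ℝ) (u : ℝ → V → V) (p : ℝ → V → ℝ) : Prop where
  contDiffOn_u : ContDiffOn ℝ 1 (fun z : ℝ × V => u z.1 z.2) (I ×ˢ univ)
  contDiffOn_p : ContDiffOn ℝ 1 (fun z : ℝ × V => p z.1 z.2) (I ×ˢ univ)
  periodic_u : ∀ t ∈ I, Periodic3 (u t)
  periodic_p : ∀ t ∈ I, Periodic3 (p t)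
  div_free : ∀ t ∈ I, ∀ x, ∑ i, D (u t) x i i = 0
  momentum : ∀ t ∈ I, ∀ x i, derivWithin (fun s => u s x i) I t
    + ∑ j, u t x j * D (u t) x j i = -fderiv ℝ (p t) x (Pi.single i 1)

/-- The vorticity `curl v`. -/
noncomputable def curl (v : V → V) (x : V) : V :=
  ![D v x 1 2 - D v x 2 1, D v x 2 0 - D v x 0 2, D v x 0 1 - D v x 1 0]

/-- The trigonometric polynomial with the `i`-th component, for `{i, j, k} = {1, 2, 3}`,
`3 sin(M xᵢ) (cos(M xⱼ) cos(3M xₖ) + cos(3M xⱼ) cos(M xₖ)) - 2 sin(3M xᵢ) cos(M xⱼ) cos(M xₖ)`. -/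
noncomputable def datum (M : ℕ) (x : V) : V := fun i =>
  3 * Real.sin (M * x i) * (Real.cos (M * x (i + 1)) * Real.cos (3 * M * x (i + 2))
      + Real.cos (3 * M * x (i + 1)) * Real.cos (M * x (i + 2)))
    - 2 * Real.sin (3 * M * x i) * Real.cos (M * x (i + 1)) * Real.cos (M * x (i + 2))

open Pool.Agent.Y302 Pool.Agent.H708R2

lemma noMode_iff (k : K) (g : V → ℝ) : NoMode k g ↔ Trunc.NoMode k g := Iff.rfl

lemma div_iff (v : V → V) (x : V) : ∑ i, D v x i i = EulerSign.divergence v x := by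
  rw [EulerSign.divergence_eq_sum]
  rfl

lemma sol_iff (Λ : Set K) (I : Set ℝ) (u : ℝ → V → V) (p : ℝ → V → ℝ) :
    IsGalerkinSolution Λ I u p ↔ Trunc.IsSolutionWithout Λᶜ I u p := by
  constructor
  · intro h
    exact ⟨h.1, h.2, h.3, h.4, fun t ht x => by rw [← div_iff]; exact h.5 t ht x,
      fun t ht k hk i => h.6 t ht k hk i, fun t ht k hk i => h.7 t ht k (by simpa using hk) i⟩
  · intro h
    exact ⟨h.1, h.2, h.3, h.4, fun t ht x => by rw [div_iff]; exact h.5 t ht x,
      fun t ht k hk i => h.6 t ht k hk i, fun t ht k hk i => h.7 t ht k (by simpa using hk) i⟩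

lemma euler_iff (I : Set ℝ) (u : ℝ → V → V) (p : ℝ → V → ℝ) :
    IsEulerSolution I u p ↔ EulerSign.IsClassicalSolution I u p := by
  constructor
  · intro h
    exact ⟨h.1, h.2, h.3, h.4, fun t ht x => by rw [← div_iff]; exact h.5 t ht x, h.6⟩
  · intro h
    exact ⟨h.1, h.2, h.3, h.4, fun t ht x => by rw [div_iff]; exact h.5 t ht x, h.6⟩

/-- First, the truncation to all modes is the system of the Euler equations. Second, whatever the set
`Λ` of modes is, each classical solution of the truncation to `Λ` conserves the energy `∫ |u|²`. Third,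
for every integer `M ≥ 1` there are disjoint sets `C = -C` and `R = -R` of frequencies, all of them with
`max |kᵢ| ≥ M`, where `C` has at most `240 log N` and `R` at most `230400 (log N)²` elements with
`max |kᵢ| ≤ N`, for every `N ≥ 2`, and a field `u` on a finite time interval `[0, T)`, smooth in `x`,
with `∫ |curl u| dx ≥ 39 / (T - t)` and with the trigonometric polynomial `datum M` as initial value,
such that for EVERY set `Λ` of modes with `C ⊆ Λ` and `Λ ∩ R = ∅`, `u` is a classical solution of the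
Fourier-Galerkin truncation of the Euler equations to `Λ`, and it is unique and maximal among all
classical solutions of it with the initial value `datum M`. In particular this holds if `Λ` is the
complement of `R`. -/
theorem result (M : ℕ) (hM : 0 < M) :
    (∀ (T : ℝ) (u : ℝ → V → V) (p : ℝ → V → ℝ),
      IsGalerkinSolution univ (Ico 0 T) u p ↔ IsEulerSolution (Ico 0 T) u p) ∧
    (∀ (Λ : Set K) (T : ℝ) (u : ℝ → V → V) (p : ℝ → V → ℝ), IsGalerkinSolution Λ (Ico 0 T) u p →
      ∀ t ∈ Ico 0 T, ∫ x in torus, ∑ i, u t x i ^ 2 = ∫ x in torus, ∑ i, u 0 x i ^ 2) ∧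
    ∃ C R : Set K, (∀ k ∈ C, -k ∈ C) ∧ (∀ k ∈ R, -k ∈ R) ∧ Disjoint C R ∧
      (∀ k ∈ C ∪ R, ∃ i, (M : ℤ) ≤ |k i|) ∧
      (∀ N : ℕ, 2 ≤ N → ({k ∈ C | ∀ i, |k i| ≤ N}.ncard : ℝ) ≤ 240 * Real.log N) ∧
      (∀ N : ℕ, 2 ≤ N → ({k ∈ R | ∀ i, |k i| ≤ N}.ncard : ℝ) ≤ 230400 * Real.log N ^ 2) ∧
      ∃ (T : ℝ) (u : ℝ → V → V) (p : ℝ → V → ℝ),
        0 < T ∧ T ≤ 56 / M ∧ u 0 = datum M ∧
        (∀ t ∈ Ico 0 T, ContDiff ℝ ∞ (u t)) ∧
        (∀ t ∈ Ico 0 T, 39 / (T - t) ≤ ∫ x in torus, Real.sqrt (∑ i, curl (u t) x i ^ 2)) ∧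
        ∀ Λ : Set K, C ⊆ Λ → Disjoint Λ R →
          IsGalerkinSolution Λ (Ico 0 T) u p ∧
          ∀ (T' : ℝ) (w : ℝ → V → V) (q : ℝ → V → ℝ),
            IsGalerkinSolution Λ (Ico 0 T') w q → w 0 = datum M →
              T' ≤ T ∧ ∀ t ∈ Ico 0 T', w t = u t := by
  refine ⟨fun T u p => ?_, fun Λ T u p h t ht => ?_, ?_⟩
  · rw [sol_iff, euler_iff, compl_univ]
    exact X85.EulerMod.none_iff
  · exact X85.EulerMod.energy ((sol_iff _ _ _ _).1 h) ht
  · obtain ⟨C, R, h1, h2, h3, h4, h5, h6, T, u, p, h7, h8, h9, h10, h11, h12, h13⟩ :=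
      X85.EulerMod.main_all M hM
    refine ⟨C, R, h1, h2, h3, h4, h5, h6, T, u, p, h7, h8, h9, h10, fun t ht => ?_,
      fun Λ hC hR => ?_⟩
    · have h := h12 t ht
      have e : ∀ y : V, EulerTypeI.nrm y = Real.sqrt (∑ i, y i ^ 2) := by
        intro y
        unfold EulerTypeI.nrm
        rw [dotProduct]
        congr 1
        exact Finset.sum_congr rfl fun i _ => by ring
      simp only [e] at h
      exact h
    · obtain ⟨a1, a2⟩ := h13 Λᶜ (fun k hk hΛ => Set.disjoint_left.1 hR hΛ hk)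
        (Set.disjoint_left.2 fun k hk hk2 => hk2 (hC hk))
      exact ⟨(sol_iff _ _ _ _).2 a1, fun T' w q hw hw0 => a2 T' w q ((sol_iff _ _ _ _).1 hw) hw0⟩

end Pool.Agent.Results.MP_b0497c_an.GalerkinTruncation
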