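import Pool.Agent.X85.EulerZero

/-!
# One-sided thresholds for Type I singularities of the Euler equations

Let `ξ = ω / |ω|` be the direction of the vorticity, `α = ξ · (∇u) ξ` the rate of stretching of the
vortex lines and `(∇u) ξ - α ξ` the velocity with which `ξ` turns along a particle path. We prove a
one-parameter family of ONE-SIDED criteria for the quantities

`K_θ = |(∇u) ξ - α ξ|² + (θ - 1) α² - ξ · (D²p) ξ`,  `θ ≥ 0`,

where `(|ω|^θ)'' = θ K_θ |ω|^θ` along the particle paths for `θ > 0`, and `K_0` is the rate of change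
of the rate of stretching `α`. The thresholds `θ + 1` and `2 θ + 1` of the criteria are sharp for
non-periodic solutions which are linear in `x`.
-/

set_option autoImplicit false

open MeasureTheory Set
open scoped ENNReal Topology

namespace Pool.Agent.Results.MP_b0497c_an.OneSidedThresholds

open Pool.Agent.H708R2.EulerSign Pool.Agent.H708R2.EulerTypeI

/-- (1) General comparison. Let `(u, p)` be a `C²` periodic solution of the Euler equations on
`[0, T)`, `0 < t₀ < T`, `θ > 0`, and `R > 0` nondecreasing and twice differentiable on `[t₀, T)`. If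
`θ K_θ ≤ R'' / R` wherever the vorticity does not vanish, for the times in `[t₀, T)`, then
`|ω|^θ ≤ C R` on `[t₀, T)` for some constant `C`.
(2) Let `θ ≥ 0` and `κ > 2 θ + 1`. If `(T - t)² K_θ ≤ θ + 1 - κ / log (1/(T - t))` wherever the
vorticity does not vanish, for all `t` near `T`, then
`|ω| ≤ C / ((T - t) log (1/(T - t))^(κ/(2 θ + 1)))` near `T`, and the Beale-Kato-Majda integral is
finite.
(3) Both constants are sharp: for all `θ ≥ 0` and `κ < 2 θ + 1` there is a smooth non-periodic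
solution, linear in `x`, which satisfies the condition of (2) for all `t` near `T` and has an
infinite Beale-Kato-Majda integral. -/
theorem result :
    (∀ (T θ t₀ : ℝ) (u : ℝ → V → V) (p : ℝ → V → ℝ) (R R1 R2 : ℝ → ℝ), IsC2Solution T u p →
      t₀ ∈ Ioo 0 T → 0 < θ →
      (∀ t ∈ Ico t₀ T, HasDerivAt R (R1 t) t) → (∀ t ∈ Ico t₀ T, HasDerivAt R1 (R2 t) t) →
      (∀ t ∈ Ico t₀ T, 0 < R t) → (∀ t ∈ Ico t₀ T, 0 ≤ R1 t) →
      (∀ t ∈ Ico t₀ T, ∀ x, vort (u t) x ≠ 0 →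
        θ * (turn (u t) x ⬝ᵥ turn (u t) x + (θ - 1) * stretch (u t) x ^ 2
          - dirv (u t) x ⬝ᵥ (hess (p t) x).mulVec (dirv (u t) x)) ≤ R2 t / R t) →
      ∃ C : ℝ, ∀ t ∈ Ico t₀ T, ∀ x, nrm (vort (u t) x) ^ θ ≤ C * R t) ∧
    (∀ (T θ κ : ℝ) (u : ℝ → V → V) (p : ℝ → V → ℝ), 0 < T → 0 ≤ θ → 2 * θ + 1 < κ →
      IsC2Solution T u p →
      (∀ᶠ t in 𝓝[<] T, ∀ x, vort (u t) x ≠ 0 →
        (T - t) ^ 2 * (turn (u t) x ⬝ᵥ turn (u t) x + (θ - 1) * stretch (u t) x ^ 2
          - dirv (u t) x ⬝ᵥ (hess (p t) x).mulVec (dirv (u t) x))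
          ≤ θ + 1 - κ / Real.log (1 / (T - t))) →
      (∃ C : ℝ, ∀ᶠ t in 𝓝[<] T, ∀ x,
        nrm (vort (u t) x) ≤ C / ((T - t) * Real.log (1 / (T - t)) ^ (κ / (2 * θ + 1)))) ∧
      BKMFinite T u) ∧
    (∀ T θ κ : ℝ, 0 < T → 0 ≤ θ → κ < 2 * θ + 1 →
      ∃ (u : ℝ → V → V) (p : ℝ → V → ℝ), IsSpaceSolution T u p ∧
        (∀ t, ∃ A : Matrix (Fin 3) (Fin 3) ℝ, ∀ x, u t x = A.mulVec x) ∧
        (∀ᶠ t in 𝓝[<] T, ∀ x,
          (T - t) ^ 2 * (turn (u t) x ⬝ᵥ turn (u t) x + (θ - 1) * stretch (u t) x ^ 2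
            - dirv (u t) x ⬝ᵥ (hess (p t) x).mulVec (dirv (u t) x))
            ≤ θ + 1 - κ / Real.log (1 / (T - t))) ∧
        ¬ BKMFinite T u) := by
  refine ⟨?_, ?_, ?_⟩
  · intro T θ t₀ u p R R1 R2 h ht₀ hθ hR hR1 hRpos hR1pos hyp
    obtain ⟨C, -, hC⟩ := vort_comp_one_sided h ht₀ hθ hR hR1 hRpos hR1pos hyp
    exact ⟨C, hC⟩
  · intro T θ κ u p hT hθ hκ h hyp
    rcases hθ.eq_or_lt with rfl | hθ
    · have := X85.EulerOne.one_sided_zero hT h (κ := κ) (by linarith) (by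
        filter_upwards [hyp] with t ht x hx
        have := ht x hx
        rw [zero_add] at this
        exact this)
      simpa using this
    · exact X85.EulerOne.one_sided hT h hθ hκ hyp
  · intro T θ κ hT _ hκ
    exact ⟨uf T, pf T, uf_solution T, fun t => ⟨Af T t, fun x => congrFun (uf_eq T t) x⟩,
      X85.EulerOne.uf_hyp_one hT hκ, uf_not_bkm hT⟩

end Pool.Agent.Results.MP_b0497c_an.OneSidedThresholds
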