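import Pool.Agent.X85.EulerQS

/-!
# The pressure at one point of maximal vorticity and the rate of growth before a singularity

It is not known whether the maximum of the vorticity is at least `c / (T - t)` at every time `t` before
a singularity of the Euler equations at the time `T`; only its integral is known to be infinite. We
show that this holds, with the exact constant, if the Laplacian of the pressure is not too negative at
ONE point of maximal vorticity, for almost every time `t`. For instance,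

`max |ω(s)| ≥ √3 / (T - s)` for every `s`, if `Δp ≥ 0`

at one point of maximal vorticity for almost every time: the pressure is subharmonic there, i.e. the
vorticity dominates the strain (the criterion `Q ≥ 0` for a vortex). In general, with the direction
`ξ` of the vorticity, the rate of stretching `α = ξ · (∇u) ξ` and the velocity `(∇u) ξ - α ξ` with
which `ξ` turns along a particle path, the condition is
`-2 Δp ≤ 4 |(∇u) ξ - α ξ|² + (3 k² - 1) |ω|²`, and the conclusion `max |ω(s)| ≥ 1 / (k (T - s))`.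
-/

set_option autoImplicit false

open MeasureTheory Set

namespace Pool.Agent.Results.MP_b0497c_an.PressureAtMaximum

open Pool.Agent.H708R2.EulerSign Pool.Agent.H708R2.EulerTypeI

/-- (1) For a `C²` periodic solution of the Euler equations, at all points where the vorticity does
not vanish, `3 α² + 4 |(∇u) ξ - α ξ|² ≤ |ω|² - 2 Δp`.
(2) Let `(u, p)` be a `C²` periodic solution on `[0, T)` with an infinite Beale-Kato-Majda integral,
`0 < s < T`, `k > 0` and `k Λ (T - s) < 1`. If for almost every `t ∈ (s, T)` there is a point `x` of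
maximal vorticity with `|ω(t, x)| ≤ Λ` or `-2 Δp ≤ 4 |(∇u) ξ - α ξ|² + (3 k² - 1) |ω|²` at `(t, x)`,
then the maximum of the vorticity at the time `s` is at least `1 / (k (T - s))`.
(3) In particular, if for almost every `t ∈ (s, T)` there is a point of maximal vorticity with
`|ω(t, x)| ≤ Λ` or `Δp(t, x) ≥ 0`, and `Λ (T - s) < √3`, then the maximum of the vorticity at the
time `s` is at least `√3 / (T - s)`.
(4) All constants are sharp: for all `k, T > 0` there is a smooth non-periodic solution, linear in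
`x`, with an infinite Beale-Kato-Majda integral, for which the condition of (2) holds at all points
of `[0, T) × ℝ³` and the vorticity is exactly `1 / (k (T - t))`. -/
theorem result :
    (∀ (T : ℝ) (u : ℝ → V → V) (p : ℝ → V → ℝ), IsC2Solution T u p → ∀ t ∈ Ioo 0 T, ∀ x,
      vort (u t) x ≠ 0 → 3 * stretch (u t) x ^ 2 + 4 * (turn (u t) x ⬝ᵥ turn (u t) x)
        ≤ vort (u t) x ⬝ᵥ vort (u t) x - 2 * (hess (p t) x).trace) ∧
    (∀ (T k Λ s : ℝ) (u : ℝ → V → V) (p : ℝ → V → ℝ), IsC2Solution T u p → ¬ BKMFinite T u →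
      s ∈ Ioo 0 T → 0 < k → k * Λ * (T - s) < 1 →
      (∀ᵐ t, t ∈ Ioo s T → ∃ x, (∀ y, nrm (vort (u t) y) ≤ nrm (vort (u t) x)) ∧
        (nrm (vort (u t) x) ≤ Λ ∨
          -2 * (hess (p t) x).trace ≤ 4 * (turn (u t) x ⬝ᵥ turn (u t) x)
            + (3 * k ^ 2 - 1) * (vort (u t) x ⬝ᵥ vort (u t) x))) →
      ∃ x, 1 / (k * (T - s)) ≤ nrm (vort (u s) x)) ∧
    (∀ (T Λ s : ℝ) (u : ℝ → V → V) (p : ℝ → V → ℝ), IsC2Solution T u p → ¬ BKMFinite T u →
      s ∈ Ioo 0 T → Λ * (T - s) < Real.sqrt 3 →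
      (∀ᵐ t, t ∈ Ioo s T → ∃ x, (∀ y, nrm (vort (u t) y) ≤ nrm (vort (u t) x)) ∧
        (nrm (vort (u t) x) ≤ Λ ∨ 0 ≤ (hess (p t) x).trace)) →
      ∃ x, Real.sqrt 3 / (T - s) ≤ nrm (vort (u s) x)) ∧
    (∀ k T : ℝ, 0 < k → 0 < T → ∃ (u : ℝ → V → V) (p : ℝ → V → ℝ), IsSpaceSolution T u p ∧
      (∀ t, ∃ A : Matrix (Fin 3) (Fin 3) ℝ, ∀ x, u t x = A.mulVec x) ∧
      (∀ t ∈ Ico 0 T, ∀ x, nrm (vort (u t) x) = 1 / (k * (T - t)) ∧
        -2 * (hess (p t) x).trace ≤ 4 * (turn (u t) x ⬝ᵥ turn (u t) x)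
          + (3 * k ^ 2 - 1) * (vort (u t) x ⬝ᵥ vort (u t) x)) ∧
      ¬ BKMFinite T u) := by
  have main : ∀ (T k Λ s : ℝ) (u : ℝ → V → V) (p : ℝ → V → ℝ), IsC2Solution T u p →
      ¬ BKMFinite T u → s ∈ Ioo 0 T → 0 < k → k * Λ * (T - s) < 1 →
      (∀ᵐ t, t ∈ Ioo s T → ∃ x, (∀ y, nrm (vort (u t) y) ≤ nrm (vort (u t) x)) ∧
        (nrm (vort (u t) x) ≤ Λ ∨
          -2 * (hess (p t) x).trace ≤ 4 * (turn (u t) x ⬝ᵥ turn (u t) x)
            + (3 * k ^ 2 - 1) * (vort (u t) x ⬝ᵥ vort (u t) x))) →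
      ∃ x, 1 / (k * (T - s)) ≤ nrm (vort (u s) x) := by
    intro T k Λ s u p h hsing hs hk hΛ hmax
    refine X85.EulerQ.lower h hk hs hΛ hsing ?_
    filter_upwards [hmax] with t ht htI
    obtain ⟨x, hx, hx2⟩ := ht htI
    exact ⟨x, hx, fun hlt => hx2.resolve_left (not_le.2 hlt)⟩
  refine ⟨fun T u p h t ht x hx => X85.EulerQ.pt_ineq h ht hx, main, ?_, ?_⟩
  · intro T Λ s u p h hsing hs hΛ hmax
    have h3 : 0 < Real.sqrt 3 := Real.sqrt_pos.2 (by norm_num)
    have hsq : Real.sqrt 3 ^ 2 = 3 := Real.sq_sqrt (by norm_num)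
    obtain ⟨x, hx⟩ := main T (1 / Real.sqrt 3) Λ s u p h hsing hs (by positivity) (by
      rw [one_div, mul_assoc, inv_mul_lt_iff₀ h3, mul_one]
      exact hΛ) (by
      filter_upwards [hmax] with t ht htI
      obtain ⟨x, hx, hx2⟩ := ht htI
      refine ⟨x, hx, hx2.imp_right fun h0 => ?_⟩
      have e : 3 * (1 / Real.sqrt 3) ^ 2 - 1 = 0 := by
        rw [div_pow, hsq]
        norm_num
      rw [e, zero_mul, add_zero]
      have h4 : 0 ≤ turn (u t) x ⬝ᵥ turn (u t) x := by
        have := dotProduct_self_star_nonneg (turn (u t) x)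
        simpa using this
      linarith)
    refine ⟨x, le_trans (le_of_eq ?_) hx⟩
    have : 0 < T - s := sub_pos.2 hs.2
    field_simp
  · intro k T hk hT
    exact ⟨X85.EulerQ.uk k T, X85.EulerQ.pk k T, X85.EulerQ.uk_solution hk T,
      fun t => ⟨X85.EulerQ.Ak k T t, fun x => congrFun (X85.EulerQ.uk_eq k T t) x⟩,
      fun t ht x => ⟨X85.EulerQ.uk_nrm hk ht.2 x, X85.EulerQ.uk_cond hk ht.2 x⟩,
      X85.EulerQ.uk_not_bkm hk hT⟩

end Pool.Agent.Results.MP_b0497c_an.PressureAtMaximum
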